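import Pool.Agent.N235.HC.Key
import Pool.Agent.N235.DH.Fin
import Pool.Agent.Results.MP_68f289_gt.HomogeneousQuasimorphisms

/-!
# Infinite systems of equations in quotients of the Hamiltonian homeomorphisms of the ball

`HamGroup n` is the group of the compactly supported Hamiltonian homeomorphisms of the open unit ball
of `ℝ^{2n}` (definitions in `HomogeneousQuasimorphisms.lean`, the same as in the frozen statement
S13311). Let `N` be a normal subgroup which contains the smooth Hamiltonian diffeomorphisms, for
instance their normal closure. If the group is simple then `N` is the whole group.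

Theorem, for all `n`: modulo `N` every triangular system of infinitely many equations
`y_k = w_k(f; y_{k+1}, y_{k+2}, …)`, `k = 0, 1, 2, …`, has a solution, where the `w_k` are arbitrary
words and the coefficients `f_0, f_1, …` are uniform limits of Hamiltonian diffeomorphisms supported
in one compact subset `K` of the ball; the `y_k` can be chosen of the same kind. In other words: the
image of the group of these limits in the quotient by `N` is Higman-complete. So its abelianization
is cotorsion (`y_k = f_k y_{k+1} ^ {m_k}`), and no homomorphism of this image to a slender group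
is nontrivial.

Proof. Every `f_j` is congruent modulo `N` to elements `x i j = (u i j)⁻¹ f_j` which converge to `1`
for `i → ∞`. The group of the limits supported in `K` is complete, and the partial solutions converge
if the representatives for the equation number `k` are chosen near enough to `1`
(`Pool/Agent/N235/HC/Key.lean`).
-/

set_option autoImplicit false

open Filter Topology

namespace Pool.Agent.Results.MP_68f289_gt.EquationsModuloSmooth

open Pool.Agent.Results.MP_68f289_gt.HomogeneousQuasimorphisms (E ball Homeo FixesOff ConvergesTo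
  IsTimeOneMap HamGroup hamBar hamBar_eq timeOne_iff)

/-- `φ` is a Hamiltonian diffeomorphism -/
def IsSmoothElement {n : ℕ} (φ : HamGroup n) : Prop := IsTimeOneMap φ.map

/-- `φ` is supported in `K` and a uniform limit of Hamiltonian diffeomorphisms supported in `K` -/
def LimitIn {n : ℕ} (K : Set (E n)) (φ : HamGroup n) : Prop :=
  (∀ x, x ∉ K → φ.map x = x) ∧
    ∃ u : ℕ → HamGroup n, (∀ i, IsSmoothElement (u i)) ∧ (∀ i x, x ∉ K → (u i).map x = x) ∧
      TendstoUniformly (fun i x => (u i).map x) φ.map atTop

/-- the value of the word `w` in the letters `f 0, f 1, …` and `y 0, y 1, …` -/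
def word {G : Type} [Group G] (w : FreeGroup (ℕ ⊕ ℕ)) (f y : ℕ → G) : G :=
  FreeGroup.lift (Sum.elim f y) w

/-! ### Proof -/

/-- the inclusion -/
noncomputable def inc (n : ℕ) : HamGroup n →* (Pool.Agent.Y453.HB.E n ≃ₜ Pool.Agent.Y453.HB.E n) :=
  Subgroup.subtype (Subgroup.closure (hamBar n))

theorem inc_injective (n : ℕ) : Function.Injective (inc n) := Subtype.val_injective

theorem inc_apply {n : ℕ} (φ : HamGroup n) (x : E n) : inc n φ x = φ.map x := rfl

theorem word_map {G H : Type} [Group G] [Group H] (g : G →* H) (w : FreeGroup (ℕ ⊕ ℕ))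
    (f y : ℕ → G) : g (word w f y) = word w (fun j => g (f j)) fun j => g (y j) := by
  unfold word
  induction w using FreeGroup.induction_on with
  | C1 => simp only [map_one]
  | of x =>
    simp only [FreeGroup.lift_apply_of]
    cases x <;> rfl
  | inv_of x ih => simp only [map_inv, ih]
  | mul x y hx hy => simp only [map_mul, hx, hy]

open Pool.Agent.N235.DH in
theorem limit_iff {n : ℕ} {K : Set (E n)} {φ : HamGroup n} (hK : IsCompact K) (hKB : K ⊆ ball n)
    (h : inc n φ ∈ HK n K) : LimitIn K φ := by
  obtain ⟨h1, u, h2, h3, h4⟩ := h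
  have hm : ∀ i, u i ∈ Subgroup.closure (hamBar n) := by
    intro i
    apply Subgroup.subset_closure
    rw [hamBar_eq]
    exact HK_hamBar hK hKB (HK_ham (h3 i) (h2 i))
  refine ⟨h1, fun i => ⟨u i, hm i⟩, fun i => ?_, fun i x hx => h2 i x hx, h4⟩
  exact (timeOne_iff (u i)).2 (h3 i)

open Pool.Agent.N235.DH in
/-- Let `N` be a normal subgroup of the group of the Hamiltonian homeomorphisms of the ball which
contains the smooth ones, let `K` be a compact subset of the ball, `f 0, f 1, …` uniform limits of
Hamiltonian diffeomorphisms supported in `K`, and let `w 0, w 1, …` be any words. Then there are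
limits `y 0, y 1, …` of the same kind such that for all `k` the element `y k` is congruent modulo `N`
to the value of `w k` for the letters `f 0, f 1, …` and `y (k + 1), y (k + 2), …`. -/
theorem result (n : ℕ) (N : Subgroup (HamGroup n)) (hN : N.Normal)
    (hsm : ∀ φ : HamGroup n, IsSmoothElement φ → φ ∈ N) (K : Set (E n)) (hK : IsCompact K)
    (hKB : K ⊆ ball n) (f : ℕ → HamGroup n) (hf : ∀ j, LimitIn K (f j))
    (w : ℕ → FreeGroup (ℕ ⊕ ℕ)) :
    ∃ y : ℕ → HamGroup n, (∀ k, LimitIn K (y k)) ∧
      ∀ k, (y k)⁻¹ * word (w k) f (fun j => y (k + 1 + j)) ∈ N := by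
  choose hf1 u hu1 hu2 hu3 using hf
  have huHK : ∀ j i, inc n (u j i) ∈ HK n K := fun j i =>
    HK_ham ((timeOne_iff (inc n (u j i))).1 (hu1 j i)) (hu2 j i)
  have hfHK : ∀ j, inc n (f j) ∈ HK n K := fun j =>
    ⟨hf1 j, fun i => inc n (u j i), hu2 j, fun i => (timeOne_iff (inc n (u j i))).1 (hu1 j i),
      hu3 j⟩
  have hX : ∀ i j, inc n ((u j i)⁻¹ * f j) ∈ HK n K := by
    intro i j
    rw [map_mul, map_inv]
    exact HK_mul hK (HK_inv hK (huHK j i)) (hfHK j)
  have hX1 : Pool.Agent.N235.HC.VConv (fun i j => inc n ((u j i)⁻¹ * f j)) fun _ => 1 := by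
    intro j
    have h1 : Pool.Agent.Y453.HB.UConv (fun i => inc n (u j i)) (inc n (f j)) :=
      Pool.Agent.Y453.HB.uconv_of Pool.Agent.Y309.HB.uc hK (hfHK j).1 (hu3 j)
    have h7 := Pool.Agent.Y309.HB.uc_mul (Pool.Agent.Y309.HB.uc_inv h1)
      (uconv_const hK (hfHK j).1)
    rw [inv_mul_cancel] at h7
    simp only [map_mul, map_inv]
    exact h7
  obtain ⟨i, y, hy, hyx⟩ := Pool.Agent.N235.HC.key hK w _ hX hX1
  have hm : ∀ k, y k ∈ Subgroup.closure (hamBar n) := by
    intro k
    apply Subgroup.subset_closure
    rw [hamBar_eq]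
    exact HK_hamBar hK hKB (hy k)
  let Y : ℕ → HamGroup n := fun k => ⟨y k, hm k⟩
  have hYy : ∀ k, inc n (Y k) = y k := fun k => rfl
  refine ⟨Y, fun k => limit_iff hK hKB (hy k), fun k => ?_⟩
  have e1 : Y k = word (w k) (fun j => (u j (i k))⁻¹ * f j) fun j => Y (k + 1 + j) := by
    apply inc_injective
    rw [word_map]
    exact hyx k
  have e2 : QuotientGroup.mk' N (Y k) =
      QuotientGroup.mk' N (word (w k) f fun j => Y (k + 1 + j)) := by
    rw [e1, word_map, word_map]
    congr 1
    funext j
    rw [map_mul, map_inv]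
    have h8 : QuotientGroup.mk' N (u j (i k)) = 1 := by
      rw [QuotientGroup.mk'_apply, QuotientGroup.eq_one_iff]
      exact hsm _ (hu1 j (i k))
    rw [h8, inv_one, one_mul]
  rw [QuotientGroup.mk'_apply, QuotientGroup.mk'_apply] at e2
  exact QuotientGroup.eq.1 e2

end Pool.Agent.Results.MP_68f289_gt.EquationsModuloSmooth
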