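import Pool.Agent.N235.DH.Fin
import Pool.Agent.Results.MP_68f289_gt.HomogeneousQuasimorphisms

/-!
# The values of homogeneous quasimorphisms on the Hamiltonian homeomorphisms of the ball

`HamGroup n` is the group of the compactly supported Hamiltonian homeomorphisms of the open unit ball
of `ℝ^{2n}` (definitions in `HomogeneousQuasimorphisms.lean`, the same as in the frozen statement
S13311):
it is generated by the homeomorphisms with support in a compact subset `K` of the open ball which are
uniform limits of time one maps of smooth Hamiltonian flows supported in `K`.

Theorem, for all `n`: every homogeneous quasimorphism on `HamGroup n` which is not identically zero has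
nonzero values arbitrarily close to `0`. No continuity is assumed. For instance, the image of a
nonzero homomorphism to `ℝ` is dense, and homogeneous quasimorphisms with values in a discrete
subgroup of `ℝ` are zero.

Proof. For a compact `K` let `G(K)` be the group of the homeomorphisms with support in `K` which are
uniform limits of elements of `Ham_c(B)` with support in `K`. If `x i` converges to `1` in `G(K)`,
then for suitable indices `i k` all the equations `y k = x (i k) * y (k + 1) ^ r k (i k)` can be
solved in `G(K)` at the same time, with exponents which may depend on the indices
(`Pool.Agent.N235.DH.key`). Let `q` be a homogeneous quasimorphism whose nonzero values have absolute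
value at least `δ`. If the exponents are larger than the values `|q (x (i k))|`, then the equations
show that almost all `q (y k)` vanish; so `q (x i)` is not larger than the defect for some `i`.
Applied to powers of the `x i` it follows that `q` vanishes near `1`, and then that `q` is locally
constant. So `q` vanishes on products of autonomous Hamiltonian diffeomorphisms, on `Ham_c(B)`
and on the limits.
-/

set_option autoImplicit false

namespace Pool.Agent.Results.MP_68f289_gt.QuasimorphismValues

open Pool.Agent.N235.DH
open Pool.Agent.Results.MP_68f289_gt.HomogeneousQuasimorphisms

/-- Let `q` be a homogeneous quasimorphism on the group of the Hamiltonian homeomorphisms of the ball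
of dimension `2n`, for any `n`. If `q` is not identically zero, then it has nonzero values
arbitrarily close to `0`. -/
theorem result (n : ℕ) (q : HamGroup n → ℝ) (hq : IsHomogeneousQuasimorphism q)
    (hne : ∃ φ, q φ ≠ 0) (ε : ℝ) (hε : 0 < ε) : ∃ φ, q φ ≠ 0 ∧ |q φ| < ε := by
  by_contra hcon
  push Not at hcon
  have hq' := qm_iff hq
  obtain ⟨D, hD⟩ := hq'.bounded
  have hgap : GapQM (fun φ => q ((iso n).symm φ)) D ε :=
    ⟨hε, hD, hq'.pow, fun φ => by
      by_cases h0 : q ((iso n).symm φ) = 0
      · exact Or.inl h0
      · exact Or.inr (hcon _ h0)⟩
  obtain ⟨φ, hφ⟩ := hne
  have h1 := hgap.zero (iso n φ)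
  rw [MulEquiv.symm_apply_apply] at h1
  exact hφ h1

end Pool.Agent.Results.MP_68f289_gt.QuasimorphismValues
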