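import Pool.Agent.N235.DH.Fin
import Pool.Agent.Results.MP_68f289_gt.HomogeneousQuasimorphisms

/-!
# Quotients of the group of Hamiltonian homeomorphisms of the ball

`HamGroup n` is the group of the compactly supported Hamiltonian homeomorphisms of the open unit ball
of `ℝ^{2n}` (definitions in `HomogeneousQuasimorphisms.lean`, the same as in the frozen statement
S13311):
it is generated by the homeomorphisms with support in a compact subset `K` of the open ball which are
uniform limits of time one maps of smooth Hamiltonian flows supported in `K`.

A group `H` is *root-rigid* if for every `a ≠ 1` there are exponents `r k ≥ 1` such that no sequence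
in `H` satisfies all the equations `h k = a * h (k + 1) ^ r k`. Free groups and free abelian groups
are examples, and all countable groups with unique roots in which only `1` has `m`-th roots for all
`m`.

Theorem, for all `n`: no proper normal subgroup of `HamGroup n` has a root-rigid quotient, and every
homomorphism to a root-rigid group is trivial.

Proof. For a compact `K` let `G(K)` be the group of the homeomorphisms with support in `K` which are
uniform limits of elements of `Ham_c(B)` with support in `K`. It is complete for uniform convergence
of the homeomorphisms and their inverses. If `x i` converges to `1` in `G(K)`, then for suitable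
indices `i k` all the equations `y k = x (i k) * y (k + 1) ^ r k` can be solved in `G(K)` at the same
time (`Pool.Agent.N235.DH.key`; this is Dudley's method for continuity of homomorphisms). Let
`u i → φ`, where the `u i` are smooth. If a homomorphism `c` is trivial on the `u i` then
`x i = (u i)⁻¹ φ` has the constant value `c φ`, so `c φ = 1` if the target is root-rigid. The same
argument reduces smooth diffeomorphisms to products of autonomous ones by the Lie-Trotter formula
(`Pool/Agent/R773/HN/Step.lean`), and those are elements of one-parameter groups.
-/

set_option autoImplicit false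

namespace Pool.Agent.Results.MP_68f289_gt.RootRigidQuotients

open Pool.Agent.N235.DH
open Pool.Agent.Results.MP_68f289_gt.HomogeneousQuasimorphisms (HamGroup iso)

universe u

/-- See above. `RootRigid`, `HasDudleyNorm`: `Pool/Agent/N235/DH/Alg.lean`. -/
theorem result (n : ℕ) :
    -- (1) no proper normal subgroup has a root-rigid quotient
    (∀ (N : Subgroup (HamGroup n)) [N.Normal], RootRigid (HamGroup n ⧸ N) → N = ⊤) ∧
    (∀ (H : Type u) [Group H], RootRigid H → ∀ (c : HamGroup n →* H) (φ : HamGroup n), c φ = 1) ∧
    -- (2) root-rigid groups: countable groups with unique roots and without divisible elements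
    (∀ (H : Type u) [Group H] [Countable H] [IsMulTorsionFree H],
      (∀ g : H, g ≠ 1 → ∃ m : ℕ, 0 < m ∧ ∀ b : H, b ^ m ≠ g) → RootRigid H) ∧
    -- groups with a norm in the sense of Dudley, for instance free groups of any rank
    (∀ (H : Type u) [Group H], HasDudleyNorm H → RootRigid H) ∧
    (∀ α : Type u, HasDudleyNorm (FreeGroup α)) ∧
    -- residually root-rigid groups, for instance subgroups and products of root-rigid groups
    (∀ (H : Type u) [Group H], (∀ a : H, a ≠ 1 →
      ∃ (G : Type u) (_ : Group G) (f : H →* G), RootRigid G ∧ f a ≠ 1) → RootRigid H) := by
  have triv : ∀ (H : Type u) [Group H], RootRigid H → ∀ (c : HamGroup n →* H) (φ : HamGroup n),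
      c φ = 1 := by
    intro H _ hH c φ
    have h1 := hom_trivial hH (c.comp (iso n).symm.toMonoidHom) (iso n φ)
    simpa using h1
  have triv0 : ∀ (H : Type) [Group H], RootRigid H → ∀ (c : HamGroup n →* H) (φ : HamGroup n),
      c φ = 1 := by
    intro H _ hH c φ
    have h1 := hom_trivial hH (c.comp (iso n).symm.toMonoidHom) (iso n φ)
    simpa using h1
  refine ⟨fun N _ hN => ?_, triv,
    fun H _ _ _ h => ?_, fun H _ h => h.rootRigid, fun α => dudley_free α,
    fun H _ h => rootRigid_of_residual h⟩
  · rw [eq_top_iff]
    intro φ _
    rw [← QuotientGroup.eq_one_iff]
    exact triv0 _ hN (QuotientGroup.mk' N) φ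
  · exact rootRigid_of_countable (fun m hm g h e => pow_left_injective hm.ne' e) h

end Pool.Agent.Results.MP_68f289_gt.RootRigidQuotients
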